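import Pool.Agent.Helper8.Sey.Basic

/-!
# Packet EXCH (project SEY): exchangeability of the colours
-/

namespace Pool.Agent.Helper73.Sey

open Pool.Agent.Helper8.Sey Pool.Agent.Helper41.Girth4

theorem pick_act {q : ℕ} [NeZero q] (s π : Equiv.Perm (Fin q)) (X Y : Fin q → Prop)
    (h : ∀ a, Y (s a) ↔ X a) : Sys.pick (s * π) Y = s (Sys.pick π X) := by
  classical
  have h1 : (Finset.univ.filter fun t : Fin q => ¬ Y ((s * π) t)) =
      Finset.univ.filter fun t : Fin q => ¬ X (π t) := by
    ext t
    simp only [Finset.mem_filter, Finset.mem_univ, true_and, Equiv.Perm.mul_apply, h]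
  unfold Sys.pick
  by_cases h2 : (Finset.univ.filter fun t : Fin q => ¬ X (π t)).Nonempty
  · have h3 : (Finset.univ.filter fun t : Fin q => ¬ Y ((s * π) t)).Nonempty := by
      rw [h1]; exact h2
    rw [dif_pos h3, dif_pos h2, Equiv.Perm.mul_apply]
    congr 2
    congr 1
  · have h3 : ¬ (Finset.univ.filter fun t : Fin q => ¬ Y ((s * π) t)).Nonempty := by
      rw [h1]; exact h2
    rw [dif_neg h3, dif_neg h2, Equiv.Perm.mul_apply]

variable {V : Type} (P : Sys V)

/-- permute the colours of a part in the labels -/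
def act (l : ℕ) (s : Equiv.Perm (Fin P.q)) (ω : P.Om) : P.Om := fun w =>
  if P.part w = l then (s * (ω w).1, (ω w).2) else ω w

/-- permute the colours of a part -/
def tr (l : ℕ) (s : Equiv.Perm (Fin P.q)) (c : V → Fin P.q) : V → Fin P.q := fun w =>
  if P.part w = l then s (c w) else c w

theorem act_act (l : ℕ) (s t : Equiv.Perm (Fin P.q)) (ω : P.Om) (h : t * s = 1) :
    act P l t (act P l s ω) = ω := by
  funext w
  unfold act
  by_cases hw : P.part w = l
  · simp only [hw, if_true]
    rw [← mul_assoc, h, one_mul]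
  · simp only [hw, if_false]

/-- the bijection -/
def actE (l : ℕ) (s : Equiv.Perm (Fin P.q)) : P.Om ≃ P.Om where
  toFun := act P l s
  invFun := act P l s⁻¹
  left_inv ω := act_act P l s s⁻¹ ω (inv_mul_cancel s)
  right_inv ω := act_act P l s⁻¹ s ω (mul_inv_cancel s)

theorem act_snd (l : ℕ) (s : Equiv.Perm (Fin P.q)) (ω : P.Om) (w : V) :
    (act P l s ω w).2 = (ω w).2 := by
  unfold act
  split <;> rfl

theorem colF_act (l : ℕ) (s : Equiv.Perm (Fin P.q)) (ω : P.Om) (c : V → Fin P.q) :
    P.colF (act P l s ω) (tr P l s c) = tr P l s (P.colF ω c) := by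
  funext v
  unfold Sys.colF
  by_cases hv : P.part v = l
  · have h1 : (act P l s ω v).1 = s * (ω v).1 := by
      unfold act
      rw [if_pos hv]
    have h2 : tr P l s (fun v => Sys.pick (ω v).1 (fun a => ∃ u, P.H.Adj u v ∧
        P.part u = P.part v ∧ P.κ u < P.κ v ∧ c u = a)) v = s (Sys.pick (ω v).1 (fun a =>
        ∃ u, P.H.Adj u v ∧ P.part u = P.part v ∧ P.κ u < P.κ v ∧ c u = a)) := by
      unfold tr
      rw [if_pos hv]
    rw [h1, h2]
    apply pick_act
    intro a
    constructor
    · rintro ⟨u, h3, h4, h5, h6⟩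
      refine ⟨u, h3, h4, h5, ?_⟩
      unfold tr at h6
      rw [if_pos (h4.trans hv)] at h6
      exact s.injective h6
    · rintro ⟨u, h3, h4, h5, h6⟩
      refine ⟨u, h3, h4, h5, ?_⟩
      unfold tr
      rw [if_pos (h4.trans hv), h6]
  · have h1 : (act P l s ω v).1 = (ω v).1 := by
      unfold act
      rw [if_neg hv]
    have h2 : tr P l s (fun v => Sys.pick (ω v).1 (fun a => ∃ u, P.H.Adj u v ∧
        P.part u = P.part v ∧ P.κ u < P.κ v ∧ c u = a)) v = Sys.pick (ω v).1 (fun a =>
        ∃ u, P.H.Adj u v ∧ P.part u = P.part v ∧ P.κ u < P.κ v ∧ c u = a) := by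
      unfold tr
      rw [if_neg hv]
    rw [h1, h2]
    congr 1
    funext a
    apply propext
    have h7 : ∀ u, P.part u = P.part v → tr P l s c u = c u := by
      intro u hu
      unfold tr
      rw [if_neg (by rw [hu]; exact hv)]
    constructor
    · rintro ⟨u, h3, h4, h5, h6⟩
      exact ⟨u, h3, h4, h5, by rw [← h6, h7 u h4]⟩
    · rintro ⟨u, h3, h4, h5, h6⟩
      exact ⟨u, h3, h4, h5, by rw [h7 u h4, h6]⟩

theorem col_act (l : ℕ) (s : Equiv.Perm (Fin P.q)) (ω : P.Om) :
    P.col (act P l s ω) = tr P l s (P.col ω) := by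
  unfold Sys.col
  have h0 : (fun v => ((act P l s ω) v).1 0) = tr P l s (fun v => (ω v).1 0) := by
    funext v
    unfold act tr
    by_cases hv : P.part v = l
    · simp only [hv, if_true, Equiv.Perm.mul_apply]
    · simp only [hv, if_false]
  rw [h0]
  have key : ∀ (n : ℕ) (c : V → Fin P.q), (P.colF (act P l s ω))^[n] (tr P l s c) =
      tr P l s ((P.colF ω)^[n] c) := by
    intro n
    induction n with
    | zero => intro c; rfl
    | succ n ih =>
      intro c
      rw [Function.iterate_succ_apply, Function.iterate_succ_apply, colF_act, ih]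
  exact key _ _

theorem cls_act_of_ne (l : ℕ) (s : Equiv.Perm (Fin P.q)) (ω : P.Om) (w : V) (h : P.part w ≠ l) :
    P.cls (act P l s ω) w = P.cls ω w := by
  unfold Sys.cls
  rw [col_act]
  unfold tr
  rw [if_neg h]

theorem cls_act_of_eq (l : ℕ) (s : Equiv.Perm (Fin P.q)) (ω : P.Om) (w : V) (h : P.part w = l) :
    P.cls (act P l s ω) w = P.cl l (s (P.col ω w)) := by
  unfold Sys.cls
  rw [col_act]
  unfold tr
  rw [if_pos h, h]

theorem agree_act (W : Finset (ZMod P.N)) (l : ℕ) (a b : Fin P.q) (ha : P.cl l a ∉ W)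
    (hb : P.cl l b ∉ W) (ω : P.Om) : P.Agree W ω (act P l (Equiv.swap a b) ω) := by
  intro w hw
  refine ⟨?_, (act_snd P l _ ω w).symm⟩
  by_cases h : P.part w = l
  · rw [cls_act_of_eq P l _ ω w h] at hw ⊢
    have h1 : P.cls ω w = P.cl l (P.col ω w) := by
      unfold Sys.cls
      rw [h]
    rw [h1] at hw ⊢
    by_cases h2 : P.col ω w = a
    · rw [h2, Equiv.swap_apply_left] at hw
      exact absurd hw (not_or.2 ⟨ha, hb⟩)
    · by_cases h3 : P.col ω w = b
      · rw [h3, Equiv.swap_apply_right] at hw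
        exact absurd hw (not_or.2 ⟨hb, ha⟩)
      · rw [Equiv.swap_apply_of_ne_of_ne h2 h3]
  · exact (cls_act_of_ne P l _ ω w h).symm

theorem pr_same [Fintype V] (E : P.Om → Prop) (W : Finset (ZMod P.N))
    (hE : ∀ ω ω', P.Agree W ω ω' → E ω → E ω') (v : V) (a b : Fin P.q)
    (ha : P.cl (P.part v) a ∉ W) (hb : P.cl (P.part v) b ∉ W) :
    Pr (fun ω : P.Om => E ω ∧ P.cls ω v = P.cl (P.part v) a) =
      Pr (fun ω : P.Om => E ω ∧ P.cls ω v = P.cl (P.part v) b) := by
  rw [← Pr_equiv (actE P (P.part v) (Equiv.swap a b))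
    (fun ω : P.Om => E ω ∧ P.cls ω v = P.cl (P.part v) b)]
  apply Pr_congr
  intro ω
  show _ ↔ (E (act P (P.part v) (Equiv.swap a b) ω) ∧
    P.cls (act P (P.part v) (Equiv.swap a b) ω) v = P.cl (P.part v) b)
  have h1 : P.Agree W ω (act P (P.part v) (Equiv.swap a b) ω) :=
    agree_act P W _ a b ha hb ω
  have h2 : P.Agree W (act P (P.part v) (Equiv.swap a b) ω) ω := by
    intro w hw
    have := h1 w hw.symm
    exact ⟨this.1.symm, this.2.symm⟩
  have h3 : E ω ↔ E (act P (P.part v) (Equiv.swap a b) ω) := ⟨hE _ _ h1, hE _ _ h2⟩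
  have h4 : P.cls ω v = P.cl (P.part v) a ↔
      P.cls (act P (P.part v) (Equiv.swap a b) ω) v = P.cl (P.part v) b := by
    rw [P.cls_eq_iff ω v (P.part_lt v) a, P.cls_eq_iff _ v (P.part_lt v) b, col_act]
    unfold tr
    rw [if_pos rfl]
    constructor
    · rintro ⟨_, h⟩
      exact ⟨rfl, by rw [h, Equiv.swap_apply_left]⟩
    · rintro ⟨_, h⟩
      refine ⟨rfl, ?_⟩
      rw [Equiv.swap_apply_eq_iff, Equiv.swap_apply_right] at h
      exact h
  rw [← h3, ← h4]

theorem goalEXCH : GoalEXCH := by
  classical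
  intro V _ P
  constructor
  · intro E W hW hE v g hg
    obtain ⟨l, hl, a, rfl⟩ := P.cl_surj g
    by_cases hv : P.part v = l
    · subst hv
      set B : Finset (Fin P.q) := Finset.univ.filter fun b => P.cl (P.part v) b ∉ W with hB
      have hcard : P.D ≤ B.card := by
        have h1 : (Finset.univ.filter fun b : Fin P.q => P.cl (P.part v) b ∈ W).card ≤ W.card := by
          apply Finset.card_le_card_of_injOn (fun b => P.cl (P.part v) b)
          · intro b hb
            exact (Finset.mem_filter.1 hb).2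
          · intro b _ b' _ h
            exact (P.cl_inj (P.part_lt v) (P.part_lt v) h).2
        have h2 := Finset.card_filter_add_card_filter_not (s := (Finset.univ : Finset (Fin P.q)))
          (fun b => P.cl (P.part v) b ∈ W)
        rw [Finset.card_univ, Fintype.card_fin] at h2
        have h3 := P.q_def
        have h4 : B.card = (Finset.univ.filter fun b : Fin P.q => ¬ P.cl (P.part v) b ∈ W).card := rfl
        omega
      have h5 : Pr (fun ω : P.Om => E ω ∧ P.col ω v ∈ B) =
          B.card * Pr (fun ω : P.Om => E ω ∧ P.cls ω v = P.cl (P.part v) a) := by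
        rw [Pr_fiber (s := B) (fun ω : P.Om => E ω ∧ P.col ω v ∈ B) (fun ω => P.col ω v)
          (fun ω h => h.2)]
        rw [Finset.sum_congr rfl (g := fun _ =>
          Pr (fun ω : P.Om => E ω ∧ P.cls ω v = P.cl (P.part v) a))]
        · rw [Finset.sum_const, nsmul_eq_mul]
        · intro b hb
          rw [pr_same P E W hE v a b hg (Finset.mem_filter.1 hb).2]
          apply Pr_congr
          intro ω
          rw [P.cls_eq_iff ω v (P.part_lt v) b]
          constructor
          · rintro ⟨⟨h6, _⟩, h7⟩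
            exact ⟨h6, rfl, h7⟩
          · rintro ⟨h6, _, h7⟩
            exact ⟨⟨h6, by rw [h7]; exact hb⟩, h7⟩
      calc (P.D : ℝ) * Pr (fun ω : P.Om => E ω ∧ P.cls ω v = P.cl (P.part v) a)
          ≤ B.card * Pr (fun ω : P.Om => E ω ∧ P.cls ω v = P.cl (P.part v) a) := by
            apply mul_le_mul_of_nonneg_right _ (Pr_nonneg _)
            exact_mod_cast hcard
        _ = Pr (fun ω : P.Om => E ω ∧ P.col ω v ∈ B) := h5.symm
        _ ≤ Pr E := Pr_mono fun ω h => h.1
    · have h1 : Pr (fun ω : P.Om => E ω ∧ P.cls ω v = P.cl l a) = 0 := by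
        rw [← Pr_false (α := P.Om)]
        apply Pr_congr
        intro ω
        rw [P.cls_eq_iff ω v hl a]
        constructor
        · rintro ⟨_, h, _⟩
          exact hv h
        · intro h
          exact h.elim
      rw [h1, mul_zero]
      exact Pr_nonneg _
  · intro v a
    have hne : Nonempty P.Om := ⟨fun _ => (1, fun _ => 0)⟩
    have h1 : ∀ b : Fin P.q, Pr (fun ω : P.Om => P.cls ω v = P.cl (P.part v) b) =
        Pr (fun ω : P.Om => P.cls ω v = P.cl (P.part v) a) := by
      intro b
      have := pr_same P (fun _ => True) ∅ (fun _ _ _ h => h) v b a (Finset.notMem_empty _)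
        (Finset.notMem_empty _)
      simpa only [true_and] using this
    have h2 : Pr (fun _ : P.Om => True) =
        ∑ b : Fin P.q, Pr (fun ω : P.Om => P.cls ω v = P.cl (P.part v) b) := by
      rw [Pr_fiber (s := Finset.univ) (fun _ : P.Om => True) (fun ω => P.col ω v)
        (fun ω _ => Finset.mem_univ _)]
      refine Finset.sum_congr rfl fun b _ => ?_
      apply Pr_congr
      intro ω
      rw [P.cls_eq_iff ω v (P.part_lt v) b]
      constructor
      · rintro ⟨_, h⟩
        exact ⟨rfl, h⟩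
      · rintro ⟨_, h⟩
        exact ⟨trivial, h⟩
    rw [Pr_true, Finset.sum_congr rfl fun b _ => h1 b, Finset.sum_const, Finset.card_univ,
      Fintype.card_fin, nsmul_eq_mul] at h2
    have hq : (P.q : ℝ) ≠ 0 := by exact_mod_cast P.q_pos.ne'
    field_simp
    linarith

end Pool.Agent.Helper73.Sey
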